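import Pool.Agent.Lib.MP_3d6951_co.Geometry

set_option autoImplicit false

/-!
# The variation of the angle along the edges
-/

open Set

namespace Pool.Agent.Lib.MP_3d6951_co

theorem slit_lemma {w₀ w₁ : ℂ} {l n : ℝ} (hn : 0 ≤ n) (h₀ : 0 < l * w₀.im + n * w₀.re)
    (h₁ : 0 < l * w₁.im + n * w₁.re) (t : unitInterval) :
    AffineMap.lineMap w₀ w₁ (t : ℝ) ∈ Complex.slitPlane := by
  have ht0 := t.2.1
  have ht1 := t.2.2
  have hre : (AffineMap.lineMap w₀ w₁ (t : ℝ)).re = (1 - (t : ℝ)) * w₀.re + t * w₁.re := by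
    simp [AffineMap.lineMap_apply]; ring
  have him : (AffineMap.lineMap w₀ w₁ (t : ℝ)).im = (1 - (t : ℝ)) * w₀.im + t * w₁.im := by
    simp [AffineMap.lineMap_apply]; ring
  have hpos : 0 < l * (AffineMap.lineMap w₀ w₁ (t : ℝ)).im +
      n * (AffineMap.lineMap w₀ w₁ (t : ℝ)).re := by
    rw [hre, him]
    have e : l * ((1 - (t : ℝ)) * w₀.im + t * w₁.im) + n * ((1 - (t : ℝ)) * w₀.re + t * w₁.re) =
        (1 - (t : ℝ)) * (l * w₀.im + n * w₀.re) + t * (l * w₁.im + n * w₁.re) := by ring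
    rw [e]
    rcases ht0.eq_or_lt with h | h
    · rw [← h]; simpa using h₀
    · have := mul_nonneg (by linarith : 0 ≤ 1 - (t : ℝ)) h₀.le
      have := mul_pos h h₁
      linarith
  rw [Complex.mem_slitPlane_iff]
  by_cases hz : (AffineMap.lineMap w₀ w₁ (t : ℝ)).im = 0
  · left
    rw [hz, mul_zero, zero_add] at hpos
    by_contra hcon
    push Not at hcon
    have := mul_nonpos_of_nonneg_of_nonpos hn hcon
    linarith
  · right; exact hz

variable {S : Set ℂ}

/-- The angle of `c (z - h)` as a continuous function on `S`. -/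
noncomputable def ang (c h : ℂ) (hc : c ≠ 0) (hS : ∀ z ∈ S, z ≠ h) : C(S, Real.Angle) where
  toFun z := (Complex.arg (c * ((z : ℂ) - h)) : Real.Angle)
  continuous_toFun := by
    rw [continuous_iff_continuousAt]
    intro z
    have h1 : c * ((z : ℂ) - h) ≠ 0 := mul_ne_zero hc (sub_ne_zero.2 (hS z z.2))
    have h2 : ContinuousAt (fun z : S => c * ((z : ℂ) - h)) z := by fun_prop
    exact ContinuousAt.comp (f := fun z : S => c * ((z : ℂ) - h))
      (g := fun w : ℂ => (Complex.arg w : Real.Angle)) (Complex.continuousAt_arg_coe_angle h1) h2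

theorem angVar_edge (c h : ℂ) (hc : c ≠ 0) (hS : ∀ z ∈ S, z ≠ h) (N : Network S) {x y : N.V}
    (e : N.Edge x y)
    (hslit : ∀ t : unitInterval,
      c * (AffineMap.lineMap (N.pos x) (N.pos y) (t : ℝ) - h) ∈ Complex.slitPlane) :
    angVar (ang c h hc hS) (Path.Homotopic.Quotient.mk (N.edgePath e)) =
      Complex.arg (c * (N.pos y - h)) - Complex.arg (c * (N.pos x - h)) := by
  have hcont : Continuous (fun t : unitInterval =>
      Complex.arg (c * (AffineMap.lineMap (N.pos x) (N.pos y) (t : ℝ) - h))) := by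
    rw [continuous_iff_continuousAt]
    intro t
    have h2 : ContinuousAt (fun t : unitInterval =>
        c * ((AffineMap.lineMap (N.pos x) (N.pos y) : ℝ →ᵃ[ℝ] ℂ) (t : ℝ) - h)) t := by
      have : Continuous (fun t : unitInterval =>
        ((AffineMap.lineMap (N.pos x) (N.pos y) : ℝ →ᵃ[ℝ] ℂ) (t : ℝ))) :=
        AffineMap.lineMap_continuous.comp continuous_subtype_val
      fun_prop
    exact ContinuousAt.comp (f := fun t : unitInterval =>
        c * ((AffineMap.lineMap (N.pos x) (N.pos y) : ℝ →ᵃ[ℝ] ℂ) (t : ℝ) - h))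
      (g := Complex.arg) (Complex.continuousAt_arg (hslit t)) h2
  rw [angVar_eq (ang c h hc hS) (N.edgePath e) ⟨_, hcont⟩ (fun t => rfl)]
  simp

theorem angVar_edge_cross (c h : ℂ) (hc : c ≠ 0) (hS : ∀ z ∈ S, z ≠ h) (N : Network S) {x y : N.V}
    (e : N.Edge x y)
    (hslit : ∀ t : unitInterval,
      -(c * (AffineMap.lineMap (N.pos x) (N.pos y) (t : ℝ) - h)) ∈ Complex.slitPlane)
    (hx : (c * (N.pos x - h)).im < 0) (hy : 0 < (c * (N.pos y - h)).im) :
    angVar (ang c h hc hS) (Path.Homotopic.Quotient.mk (N.edgePath e)) =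
      Complex.arg (c * (N.pos y - h)) - Complex.arg (c * (N.pos x - h)) - 2 * Real.pi := by
  have hcont : Continuous (fun t : unitInterval =>
      Complex.arg (-(c * (AffineMap.lineMap (N.pos x) (N.pos y) (t : ℝ) - h))) + Real.pi) := by
    rw [continuous_iff_continuousAt]
    intro t
    have h2 : ContinuousAt (fun t : unitInterval =>
        -(c * ((AffineMap.lineMap (N.pos x) (N.pos y) : ℝ →ᵃ[ℝ] ℂ) (t : ℝ) - h))) t := by
      have : Continuous (fun t : unitInterval =>
        ((AffineMap.lineMap (N.pos x) (N.pos y) : ℝ →ᵃ[ℝ] ℂ) (t : ℝ))) :=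
        AffineMap.lineMap_continuous.comp continuous_subtype_val
      fun_prop
    have h3 := ContinuousAt.comp (f := fun t : unitInterval =>
        -(c * ((AffineMap.lineMap (N.pos x) (N.pos y) : ℝ →ᵃ[ℝ] ℂ) (t : ℝ) - h)))
      (g := Complex.arg) (Complex.continuousAt_arg (hslit t)) h2
    exact h3.add continuousAt_const
  rw [angVar_eq (ang c h hc hS) (N.edgePath e) ⟨_, hcont⟩ ?_]
  · simp only [ContinuousMap.coe_mk, Set.Icc.coe_one, Set.Icc.coe_zero,
      AffineMap.lineMap_apply_one, AffineMap.lineMap_apply_zero]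
    rw [Complex.arg_neg_eq_arg_sub_pi_of_im_pos hy, Complex.arg_neg_eq_arg_add_pi_of_im_neg hx]
    ring
  · intro t
    have h1 : c * (AffineMap.lineMap (N.pos x) (N.pos y) (t : ℝ) - h) ≠ 0 := by
      intro h0
      have := Complex.slitPlane_ne_zero (hslit t)
      rw [h0, neg_zero] at this
      exact this rfl
    simp only [ContinuousMap.coe_mk, Real.Angle.coe_add]
    rw [Complex.arg_neg_coe_angle h1, add_assoc, Real.Angle.coe_pi_add_coe_pi, add_zero]
    rfl

theorem mul_lineMap_sub (c h p q : ℂ) (t : ℝ) :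
    c * (AffineMap.lineMap p q t - h) = AffineMap.lineMap (c * (p - h)) (c * (q - h)) t := by
  simp only [AffineMap.lineMap_apply, vsub_eq_sub, vadd_eq_add, Complex.real_smul]
  ring

theorem neg_mul_lineMap_sub (c h p q : ℂ) (t : ℝ) :
    -(c * (AffineMap.lineMap p q t - h)) =
      AffineMap.lineMap (-(c * (p - h))) (-(c * (q - h))) t := by
  simp only [AffineMap.lineMap_apply, vsub_eq_sub, vadd_eq_add, Complex.real_smul]
  ring

end Pool.Agent.Lib.MP_3d6951_co
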