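import Mathlib

set_option autoImplicit false

/-!
# Oriented networks with straight edges in planar surfaces, highway paths and their homology classes
-/

open Set

namespace Pool.Agent.Lib.MP_3d6951_co

/-- The surface: the closed disc of radius `20` around `0`, minus the two open discs of radius `1`
around `0` and around `-2 + 4i`. -/
def surface : Set ℂ :=
  Metric.closedBall 0 20 \ (Metric.ball 0 1 ∪ Metric.ball ⟨-2, 4⟩ 1)

/-- The four nonzero vectors `z 0, z 1, z 2, z 3` of the plane are listed counterclockwise. -/
def Counterclockwise (z : Fin 4 → ℂ) : Prop :=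
  ∃ t : Fin 4 → ℝ, (∀ k, ∃ r : ℝ, 0 < r ∧ z k = r * Complex.exp (t k * Complex.I)) ∧
    t 0 < t 1 ∧ t 1 < t 2 ∧ t 2 < t 3 ∧ t 3 < t 0 + 2 * Real.pi

/-- An oriented network with straight edges in a closed planar region `S`. -/
structure Network (S : Set ℂ) where
  /-- the vertices -/
  V : Type
  /-- there are finitely many vertices -/
  finite : Finite V
  /-- the positions of the vertices -/
  pos : V → ℂ
  /-- `Edge x y` says that the segment from `pos x` to `pos y` is a directed edge from `x` to `y` -/
  Edge : V → V → Prop
  /-- the first incoming neighbour of an interior vertex (incoming half of the highway) -/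
  e₁ : V → V
  /-- the second incoming neighbour of an interior vertex (incoming half of the underway) -/
  e₂ : V → V
  /-- the first outgoing neighbour of an interior vertex (outgoing half of the highway) -/
  f₁ : V → V
  /-- the second outgoing neighbour of an interior vertex (outgoing half of the underway) -/
  f₂ : V → V
  pos_injective : Function.Injective pos
  pos_mem : ∀ x, pos x ∈ S
  /-- the interior of an edge does not meet the boundary of the surface -/
  edge_interior : ∀ x y, Edge x y → openSegment ℝ (pos x) (pos y) ⊆ interior S
  /-- the interior of an edge contains no vertex -/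
  edge_vertex : ∀ x y z, Edge x y → pos z ∉ openSegment ℝ (pos x) (pos y)
  /-- the interiors of two different edges are disjoint -/
  edge_disjoint : ∀ x y x' y', Edge x y → Edge x' y' → (x, y) ≠ (x', y') →
    Disjoint (openSegment ℝ (pos x) (pos y)) (openSegment ℝ (pos x') (pos y'))
  /-- every boundary vertex has degree at most one -/
  boundary_degree : ∀ x, pos x ∈ frontier S →
    {y | Edge x y}.encard + {y | Edge y x}.encard ≤ 1
  /-- every interior vertex `x` has exactly two incoming edges, from `e₁ x` and from `e₂ x`, -/
  incoming : ∀ x, pos x ∈ interior S → e₁ x ≠ e₂ x ∧ ∀ y, Edge y x ↔ y = e₁ x ∨ y = e₂ x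
  /-- and exactly two outgoing edges, to `f₁ x` and to `f₂ x`, -/
  outgoing : ∀ x, pos x ∈ interior S → f₁ x ≠ f₂ x ∧ ∀ y, Edge x y ↔ y = f₁ x ∨ y = f₂ x
  /-- and around `x` they are listed counterclockwise as `e₁, e₂, f₁, f₂`. -/
  ccw : ∀ x, pos x ∈ interior S → Counterclockwise
    ![pos (e₁ x) - pos x, pos (e₂ x) - pos x, pos (f₁ x) - pos x, pos (f₂ x) - pos x]

variable {S : Set ℂ}

/-- `Walk N x y` is the type of the directed walks in the network `N` from `x` to `y`. -/
inductive Walk (N : Network S) (x : N.V) : N.V → Type
  /-- the walk of length zero -/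
  | nil : Walk N x x
  /-- a walk followed by one more edge -/
  | snoc {y z : N.V} (q : Walk N x y) (h : N.Edge y z) : Walk N x z

/-- The vertex visited immediately before the end of the walk (if there is one). -/
def Walk.previous {N : Network S} {x : N.V} : {y : N.V} → Walk N x y → Option N.V
  | _, .nil => none
  | _, .snoc (y := y) _ _ => some y

/-- A highway path is a directed walk that never enters an interior vertex `y` through the incoming
underway edge (from `e₂ y`) and leaves it through the outgoing underway edge (to `f₂ y`). -/
def Walk.IsHighway {N : Network S} {x : N.V} : {y : N.V} → Walk N x y → Prop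
  | _, .nil => True
  | _, .snoc (y := y) (z := z) q _ => q.IsHighway ∧
      ¬ (N.pos y ∈ interior S ∧ q.previous = some (N.e₂ y) ∧ z = N.f₂ y)

/-- The vertex `x` as a point of the space `S`. -/
def Network.pt (N : Network S) (x : N.V) : S := ⟨N.pos x, N.pos_mem x⟩

/-- The straight segment of an edge, as a path in the space `S`. -/
noncomputable def Network.edgePath (N : Network S) {x y : N.V} (h : N.Edge x y) :
    Path (N.pt x) (N.pt y) where
  toFun t := ⟨AffineMap.lineMap (N.pos x) (N.pos y) (t : ℝ), by
    rcases eq_or_lt_of_le t.2.1 with h0 | h0
    · rw [← h0, AffineMap.lineMap_apply_zero]; exact N.pos_mem x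
    · rcases eq_or_lt_of_le t.2.2 with h1 | h1
      · rw [h1, AffineMap.lineMap_apply_one]; exact N.pos_mem y
      · apply interior_subset (N.edge_interior x y h _)
        rw [openSegment_eq_image_lineMap]
        exact ⟨t, ⟨h0, h1⟩, rfl⟩⟩
  continuous_toFun := by
    apply Continuous.subtype_mk
    exact AffineMap.lineMap_continuous.comp continuous_subtype_val
  source' := by
    apply Subtype.ext
    simp [Network.pt]
  target' := by
    apply Subtype.ext
    simp [Network.pt]

/-- The path in `S` described by a directed walk. -/
noncomputable def Walk.path {N : Network S} {x : N.V} :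
    {y : N.V} → Walk N x y → Path (N.pt x) (N.pt y)
  | _, .nil => Path.refl (N.pt x)
  | _, .snoc q h => q.path.trans (N.edgePath h)

/-- The first homology group `H₁(S, ℤ)` of the path connected space `S`, as the abelianisation of the
fundamental group based at `x`, written additively. -/
abbrev H₁ {X : Type} [TopologicalSpace X] (x : X) : Type :=
  Additive (Abelianization (FundamentalGroup X x))

/-- The homology class of a closed path. -/
noncomputable def homologyClass {X : Type} [TopologicalSpace X] {x : X} (γ : Path x x) : H₁ x :=
  Additive.ofMul (Abelianization.of (FundamentalGroup.fromPath (Path.Homotopic.Quotient.mk γ)))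

/-- The set `H(u, v)` of the classes `[q ∪ p*]`, where `q` runs over the highway paths from `u` to `v`
and `p*` is the reverse of the basepath `p`. -/
def Network.H (N : Network S) {u v : N.V} (p : Path (N.pt u) (N.pt v)) : Set (H₁ (N.pt u)) :=
  {c | ∃ q : Walk N u v, q.IsHighway ∧ c = homologyClass (q.path.trans p.symm)}

/-- A subset `X` of an abelian group `A` is polyhedral if it is the set of solutions in `A` of finitely
many affine linear inequalities `ℓ x ≤ c` with additive maps `ℓ : A → ℝ`. -/
def IsPolyhedral {A : Type} [AddCommGroup A] (X : Set A) : Prop :=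
  ∃ (m : ℕ) (ℓ : Fin m → (A →+ ℝ)) (c : Fin m → ℝ), X = {x | ∀ i, ℓ i x ≤ c i}

end Pool.Agent.Lib.MP_3d6951_co
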