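import Pool.Agent.Lib.MP_3d6951_co.Angle

set_option autoImplicit false

/-!
# The network
-/

open Set

namespace Pool.Agent.Lib.MP_3d6951_co

/-- The vertices of the network. -/
inductive Vx
  | A | D | B1 | B2 | B3 | u | w | v | x | x1 | x3 | y2 | y3
  deriving DecidableEq

namespace Vx

instance : Fintype Vx where
  elems := {A, D, B1, B2, B3, u, w, v, x, x1, x3, y2, y3}
  complete := by intro a; cases a <;> decide

/-- first coordinates -/
def px : Vx → ℤ
  | A => -12 | D => 4 | B1 => -4 | B2 => 2 | B3 => 2 | u => -16 | w => -16 | v => 16 | x => 0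
  | x1 => -3 | x3 => 12 | y2 => 0 | y3 => 0

/-- second coordinates -/
def py : Vx → ℤ
  | A => -3 | D => 14 | B1 => 0 | B2 => 4 | B3 => -4 | u => 12 | w => -12 | v => 12 | x => 20
  | x1 => 4 | x3 => -16 | y2 => 1 | y3 => -1

/-- the interior vertices -/
def inner : Vx → Bool
  | A => true | D => true | B1 => true | B2 => true | B3 => true
  | _ => false

/-- the edges -/
def edges : List (Vx × Vx) :=
  [(u, A), (w, A), (A, D), (A, B1), (B1, B2), (B2, B3), (B3, B1), (y2, B2), (y3, B3), (B1, x1),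
    (B2, D), (B3, x3), (D, v), (D, x)]

/-- first incoming neighbour -/
def e1 : Vx → Vx
  | A => u | B1 => A | B2 => B1 | B3 => B2 | D => A | z => z

/-- second incoming neighbour -/
def e2 : Vx → Vx
  | A => w | B1 => B3 | B2 => y2 | B3 => y3 | D => B2 | z => z

/-- first outgoing neighbour -/
def f1 : Vx → Vx
  | A => B1 | B1 => B2 | B2 => B3 | B3 => B1 | D => v | z => z

/-- second outgoing neighbour -/
def f2 : Vx → Vx
  | A => D | B1 => x1 | B2 => D | B3 => x3 | D => x | z => z

/-- the positions of the vertices in the plane -/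
noncomputable def pos (a : Vx) : ℂ := ⟨(px a : ℝ), (py a : ℝ)⟩

/-- the orientation determinant of three vertices -/
def ior (a b c : Vx) : ℤ := (px b - px a) * (py c - py a) - (py b - py a) * (px c - px a)

theorem orient_pos (a b c : Vx) : orient (pos a) (pos b) (pos c) = (ior a b c : ℝ) := by
  simp only [orient, pos, ior]; push_cast; ring

/-- the small vectors used as certificates -/
def dirs : List (ℤ × ℤ) := [(-1, -1), (-1, 0), (-1, 1), (0, -1), (0, 1), (1, -1), (1, 0), (1, 1)]

theorem inner_facts : ∀ a : Vx, inner a = true → px a ^ 2 + py a ^ 2 < 400 ∧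
    1 < px a ^ 2 + py a ^ 2 ∧ 1 < (px a + 2) ^ 2 + (py a - 4) ^ 2 := by decide +kernel

theorem not_inner_facts : ∀ a : Vx, inner a = false → px a ^ 2 + py a ^ 2 = 400 ∨
    px a ^ 2 + py a ^ 2 = 1 ∨ (px a + 2) ^ 2 + (py a - 4) ^ 2 = 1 := by decide +kernel

theorem all_facts : ∀ a : Vx, px a ^ 2 + py a ^ 2 ≤ 400 ∧
    1 ≤ px a ^ 2 + py a ^ 2 ∧ 1 ≤ (px a + 2) ^ 2 + (py a - 4) ^ 2 := by decide +kernel

theorem pos_inj_facts : ∀ a b : Vx, px a = px b → py a = py b → a = b := by decide +kernel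

theorem edge_facts₀ : ∀ e ∈ edges, 0 < (px e.1 - px e.2) ^ 2 + (py e.1 - py e.2) ^ 2 := by decide +kernel

theorem edge_facts₁ : ∀ e ∈ edges, ∃ n ∈ dirs, 0 < n.1 * px e.1 + n.2 * py e.1 ∧
    0 < n.1 * px e.2 + n.2 * py e.2 ∧ n.1 ^ 2 + n.2 ^ 2 ≤ (n.1 * px e.1 + n.2 * py e.1) ^ 2 ∧
    n.1 ^ 2 + n.2 ^ 2 ≤ (n.1 * px e.2 + n.2 * py e.2) ^ 2 ∧
    2 * (n.1 ^ 2 + n.2 ^ 2) < (n.1 * px e.1 + n.2 * py e.1) ^ 2 +
      (n.1 * px e.2 + n.2 * py e.2) ^ 2 := by decide +kernel

theorem edge_facts₂ : ∀ e ∈ edges, ∃ n ∈ dirs, 0 < n.1 * (px e.1 + 2) + n.2 * (py e.1 - 4) ∧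
    0 < n.1 * (px e.2 + 2) + n.2 * (py e.2 - 4) ∧
    n.1 ^ 2 + n.2 ^ 2 ≤ (n.1 * (px e.1 + 2) + n.2 * (py e.1 - 4)) ^ 2 ∧
    n.1 ^ 2 + n.2 ^ 2 ≤ (n.1 * (px e.2 + 2) + n.2 * (py e.2 - 4)) ^ 2 ∧
    2 * (n.1 ^ 2 + n.2 ^ 2) < (n.1 * (px e.1 + 2) + n.2 * (py e.1 - 4)) ^ 2 +
      (n.1 * (px e.2 + 2) + n.2 * (py e.2 - 4)) ^ 2 := by decide +kernel

theorem edge_vertex_facts : ∀ e ∈ edges, ∀ c : Vx, c = e.1 ∨ c = e.2 ∨ ior e.1 e.2 c ≠ 0 := by
  decide +kernel

/-- the segment `f` lies weakly on one side of the line through the segment `e` -/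
def sep (e f : Vx × Vx) : Prop :=
  (0 ≤ ior e.1 e.2 f.1 ∧ 0 ≤ ior e.1 e.2 f.2 ∧ 0 < ior e.1 e.2 f.1 + ior e.1 e.2 f.2) ∨
  (ior e.1 e.2 f.1 ≤ 0 ∧ ior e.1 e.2 f.2 ≤ 0 ∧ ior e.1 e.2 f.1 + ior e.1 e.2 f.2 < 0)

instance (e f : Vx × Vx) : Decidable (sep e f) := by unfold sep; infer_instance

theorem edge_disjoint_facts : ∀ e ∈ edges, ∀ f ∈ edges, e = f ∨ sep e f ∨ sep f e := by decide +kernel

theorem out_facts : ∀ a : Vx, inner a = true →
    f1 a ≠ f2 a ∧ ∀ b, (a, b) ∈ edges ↔ b = f1 a ∨ b = f2 a := by decide +kernel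

theorem in_facts : ∀ a : Vx, inner a = true →
    e1 a ≠ e2 a ∧ ∀ b, (b, a) ∈ edges ↔ b = e1 a ∨ b = e2 a := by decide +kernel

/-- cross products of the directions from `a` to `b` and from `a` to `c` -/
def icross (a b c : Vx) : ℤ := (px b - px a) * (py c - py a) - (py b - py a) * (px c - px a)

theorem ccw_facts : ∀ a : Vx, inner a = true → 0 < icross a (e1 a) (e2 a) ∧
    0 < icross a (e2 a) (f1 a) ∧ 0 < icross a (f1 a) (f2 a) ∧ 0 < icross a (f2 a) (e1 a) := by
  decide +kernel

theorem deg_facts : ∀ a : Vx, inner a = false →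
    (Finset.univ.filter fun b => (a, b) ∈ edges).card +
      (Finset.univ.filter fun b => (b, a) ∈ edges).card ≤ 1 := by decide +kernel

theorem mem_interior_iff (a : Vx) : pos a ∈ interior surface ↔ inner a = true := by
  constructor
  · intro h
    by_contra hcon
    have hcon' : inner a = false := by simpa using hcon
    have h1 := not_inner_facts a hcon'
    have h2 := of_mem_interior_surface h
    simp only [pos] at h2
    obtain ⟨h3, h4, h5⟩ := h2
    rcases h1 with h6 | h6 | h6
    · have : ((px a : ℝ) ^ 2 + (py a : ℝ) ^ 2) = 400 := by exact_mod_cast h6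
      linarith
    · have : ((px a : ℝ) ^ 2 + (py a : ℝ) ^ 2) = 1 := by exact_mod_cast h6
      linarith
    · have : (((px a : ℝ) + 2) ^ 2 + ((py a : ℝ) - 4) ^ 2) = 1 := by exact_mod_cast h6
      linarith
  · intro h
    obtain ⟨h1, h2, h3⟩ := inner_facts a h
    apply mem_interior_surface <;> simp only [pos]
    · exact_mod_cast h1
    · exact_mod_cast h2
    · exact_mod_cast h3

theorem mem_surface (a : Vx) : pos a ∈ surface := by
  obtain ⟨h1, h2, h3⟩ := all_facts a
  apply MP_3d6951_co.mem_surface <;> simp only [pos]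
  · exact_mod_cast h1
  · exact_mod_cast h2
  · exact_mod_cast h3

theorem pos_ne_of_edge {e : Vx × Vx} (he : e ∈ edges) : pos e.1 ≠ pos e.2 := by
  intro h
  have h1 := edge_facts₀ e he
  have h2 : (px e.1 : ℝ) = px e.2 := congrArg Complex.re h
  have h3 : (py e.1 : ℝ) = py e.2 := congrArg Complex.im h
  have h2' : px e.1 = px e.2 := by exact_mod_cast h2
  have h3' : py e.1 = py e.2 := by exact_mod_cast h3
  rw [h2', h3'] at h1
  simp at h1

theorem openSegment_subset {e : Vx × Vx} (he : e ∈ edges) :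
    openSegment ℝ (pos e.1) (pos e.2) ⊆ interior surface := by
  intro z hz
  obtain ⟨t, h0, h1, h2, h3⟩ := exists_of_mem_openSegment hz
  simp only [pos] at h2 h3
  apply mem_interior_surface
  · rw [h2, h3]
    apply outer_lemma h0 h1
    · exact_mod_cast (all_facts e.1).1
    · exact_mod_cast (all_facts e.2).1
    · exact_mod_cast edge_facts₀ e he
  · obtain ⟨n, -, a1, a2, a3, a4, a5⟩ := edge_facts₁ e he
    rw [h2, h3]
    apply hole_lemma (n₀ := (n.1 : ℝ)) (n₁ := (n.2 : ℝ)) h0 h1
    · exact_mod_cast a1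
    · exact_mod_cast a2
    · exact_mod_cast a3
    · exact_mod_cast a4
    · exact_mod_cast a5
  · obtain ⟨n, -, a1, a2, a3, a4, a5⟩ := edge_facts₂ e he
    have e1 : z.re + 2 = (1 - t) * ((px e.1 : ℝ) + 2) + t * ((px e.2 : ℝ) + 2) := by
      rw [h2]; ring
    have e2 : z.im - 4 = (1 - t) * ((py e.1 : ℝ) - 4) + t * ((py e.2 : ℝ) - 4) := by
      rw [h3]; ring
    rw [e1, e2]
    apply hole_lemma (n₀ := (n.1 : ℝ)) (n₁ := (n.2 : ℝ)) h0 h1
    · exact_mod_cast a1
    · exact_mod_cast a2
    · exact_mod_cast a3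
    · exact_mod_cast a4
    · exact_mod_cast a5

theorem not_mem_openSegment {e : Vx × Vx} (he : e ∈ edges) (c : Vx) :
    pos c ∉ openSegment ℝ (pos e.1) (pos e.2) := by
  rcases edge_vertex_facts e he c with h | h | h
  · rw [h]; exact left_not_mem_openSegment' (pos_ne_of_edge he)
  · rw [h]; exact right_not_mem_openSegment' (pos_ne_of_edge he)
  · intro hc
    have := orient_openSegment hc
    rw [orient_pos] at this
    exact h (by exact_mod_cast this)

theorem disjoint_of_sep {e f : Vx × Vx} (h : sep e f) :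
    Disjoint (openSegment ℝ (pos e.1) (pos e.2)) (openSegment ℝ (pos f.1) (pos f.2)) := by
  apply disjoint_openSegment
  simp only [orient_pos]
  unfold sep at h
  exact_mod_cast h

theorem disjoint_edges {e f : Vx × Vx} (he : e ∈ edges) (hf : f ∈ edges) (hne : e ≠ f) :
    Disjoint (openSegment ℝ (pos e.1) (pos e.2)) (openSegment ℝ (pos f.1) (pos f.2)) := by
  rcases edge_disjoint_facts e he f hf with h | h | h
  · exact absurd h hne
  · exact disjoint_of_sep h
  · exact (disjoint_of_sep h).symm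

end Vx

open Vx

/-- The network of the counterexample. -/
noncomputable abbrev net : Network surface where
  V := Vx
  finite := inferInstance
  pos := Vx.pos
  Edge a b := (a, b) ∈ edges
  e₁ := e1
  e₂ := e2
  f₁ := f1
  f₂ := f2
  pos_injective := by
    intro a b h
    have h2 : (px a : ℝ) = px b := congrArg Complex.re h
    have h3 : (py a : ℝ) = py b := congrArg Complex.im h
    exact pos_inj_facts a b (by exact_mod_cast h2) (by exact_mod_cast h3)
  pos_mem := Vx.mem_surface
  edge_interior := fun a b h => openSegment_subset (e := (a, b)) h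
  edge_vertex := fun a b c h => not_mem_openSegment (e := (a, b)) h c
  edge_disjoint := fun a b a' b' h h' hne => disjoint_edges (e := (a, b)) (f := (a', b')) h h' hne
  boundary_degree := by
    intro a ha
    have h1 : inner a = false := by
      by_contra hcon
      have hcon' : inner a = true := by simpa using hcon
      exact ha.2 ((mem_interior_iff a).2 hcon')
    have h2 := deg_facts a h1
    have e1 : {b : Vx | (a, b) ∈ edges} = ↑(Finset.univ.filter fun b => (a, b) ∈ edges) := by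
      ext b; simp
    have e2 : {b : Vx | (b, a) ∈ edges} = ↑(Finset.univ.filter fun b => (b, a) ∈ edges) := by
      ext b; simp
    rw [e1, e2, Set.encard_coe_eq_coe_finsetCard, Set.encard_coe_eq_coe_finsetCard]
    exact_mod_cast h2
  incoming := by
    intro a ha
    exact in_facts a ((mem_interior_iff a).1 ha)
  outgoing := by
    intro a ha
    exact out_facts a ((mem_interior_iff a).1 ha)
  ccw := by
    intro a ha
    obtain ⟨h1, h2, h3, h4⟩ := ccw_facts a ((mem_interior_iff a).1 ha)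
    unfold icross at h1 h2 h3 h4
    apply counterclockwise_of_cross
    · simp only [Matrix.cons_val_zero, Matrix.cons_val_one, Vx.pos, Complex.sub_re, Complex.sub_im]
      exact_mod_cast h1
    · simp only [Matrix.cons_val_one, Matrix.cons_val, Vx.pos, Complex.sub_re, Complex.sub_im]
      exact_mod_cast h2
    · simp only [Matrix.cons_val, Vx.pos, Complex.sub_re, Complex.sub_im]
      exact_mod_cast h3
    · simp only [Matrix.cons_val, Matrix.cons_val_zero, Vx.pos, Complex.sub_re, Complex.sub_im]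
      exact_mod_cast h4

end Pool.Agent.Lib.MP_3d6951_co
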