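import Pool.Agent.Lib.MP_3d6951_co.Example

set_option autoImplicit false

/-!
# The set `H(u, v)` of the network is not polyhedral
-/

open Set

namespace Pool.Agent.Lib.MP_3d6951_co

open Vx

theorem ne_zero_of_mem : ∀ z ∈ surface, z ≠ (0 : ℂ) := by
  rintro z hz rfl
  have := (of_mem_surface hz).1
  simp at this
  linarith

theorem ne_hole_of_mem : ∀ z ∈ surface, z ≠ (⟨-2, 4⟩ : ℂ) := by
  rintro z hz rfl
  have := (of_mem_surface hz).2
  norm_num at this

/-- the angle around the first hole, with the cut along the positive real axis -/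
noncomputable def fa : C(surface, Real.Angle) := ang (-1) 0 (by norm_num) ne_zero_of_mem

/-- the angle around the second hole, with the cut along the upward vertical ray -/
noncomputable def fb : C(surface, Real.Angle) :=
  ang Complex.I ⟨-2, 4⟩ Complex.I_ne_zero ne_hole_of_mem

/-- the argument belonging to `fa` -/
noncomputable def ta (a : Vx) : ℝ := Complex.arg (-1 * (Vx.pos a - 0))

/-- the argument belonging to `fb` -/
noncomputable def tb (a : Vx) : ℝ := Complex.arg (Complex.I * (Vx.pos a - ⟨-2, 4⟩))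

theorem wa_re (a : Vx) : (-1 * (Vx.pos a - 0)).re = ((-px a : ℤ) : ℝ) := by
  simp [Vx.pos]

theorem wa_im (a : Vx) : (-1 * (Vx.pos a - 0)).im = ((-py a : ℤ) : ℝ) := by
  simp [Vx.pos]

theorem wb_re (a : Vx) : (Complex.I * (Vx.pos a - ⟨-2, 4⟩)).re = ((4 - py a : ℤ) : ℝ) := by
  simp [Vx.pos]

theorem wb_im (a : Vx) : (Complex.I * (Vx.pos a - ⟨-2, 4⟩)).im = ((px a + 2 : ℤ) : ℝ) := by
  simp [Vx.pos]

theorem slit_facts_a : ∀ e ∈ edges, e ≠ (B2, B3) → ∃ n ∈ dirs, 0 ≤ n.2 ∧
    0 < n.1 * (-py e.1) + n.2 * (-px e.1) ∧ 0 < n.1 * (-py e.2) + n.2 * (-px e.2) := by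
  decide +kernel

theorem slit_facts_b : ∀ e ∈ edges, e ≠ (A, D) → ∃ n ∈ dirs, 0 ≤ n.2 ∧
    0 < n.1 * (px e.1 + 2) + n.2 * (4 - py e.1) ∧
    0 < n.1 * (px e.2 + 2) + n.2 * (4 - py e.2) := by
  decide +kernel

theorem angVar_fa {a b : Vx} (h : (a, b) ∈ edges) :
    angVar fa (Path.Homotopic.Quotient.mk (net.edgePath (x := a) (y := b) h)) =
      ta b - ta a - 2 * Real.pi * (if (a, b) = (B2, B3) then 1 else 0 : ℕ) := by
  by_cases hab : (a, b) = (B2, B3)
  · rw [if_pos hab]
    obtain ⟨rfl, rfl⟩ := Prod.mk.injEq _ _ _ _ ▸ hab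
    have key := angVar_edge_cross (-1) 0 (by norm_num) ne_zero_of_mem net (x := B2) (y := B3) h
      (by
        intro t
        rw [neg_mul_lineMap_sub]
        apply slit_lemma (l := 0) (n := 1) zero_le_one
        · show 0 < 0 * (-(-1 * (Vx.pos B2 - 0))).im + 1 * (-(-1 * (Vx.pos B2 - 0))).re
          rw [Complex.neg_re, wa_re]; norm_num [px]
        · show 0 < 0 * (-(-1 * (Vx.pos B3 - 0))).im + 1 * (-(-1 * (Vx.pos B3 - 0))).re
          rw [Complex.neg_re, wa_re]; norm_num [px])
      (by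
        show (-1 * (Vx.pos B2 - 0)).im < 0
        rw [wa_im]; norm_num [py])
      (by
        show 0 < (-1 * (Vx.pos B3 - 0)).im
        rw [wa_im]; norm_num [py])
    rw [show (2 * Real.pi * ((1 : ℕ) : ℝ)) = 2 * Real.pi by norm_num]
    exact key
  · rw [if_neg hab]
    obtain ⟨n, -, h0, h1, h2⟩ := slit_facts_a (a, b) h hab
    have key := angVar_edge (-1) 0 (by norm_num) ne_zero_of_mem net (x := a) (y := b) h
      (by
        intro t
        rw [mul_lineMap_sub]
        apply slit_lemma (l := (n.1 : ℝ)) (n := (n.2 : ℝ)) (by exact_mod_cast h0)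
        · show 0 < (n.1 : ℝ) * (-1 * (Vx.pos a - 0)).im + (n.2 : ℝ) * (-1 * (Vx.pos a - 0)).re
          rw [wa_re, wa_im]; exact_mod_cast h1
        · show 0 < (n.1 : ℝ) * (-1 * (Vx.pos b - 0)).im + (n.2 : ℝ) * (-1 * (Vx.pos b - 0)).re
          rw [wa_re, wa_im]; exact_mod_cast h2)
    rw [Nat.cast_zero, mul_zero, sub_zero]
    exact key

theorem angVar_fb {a b : Vx} (h : (a, b) ∈ edges) :
    angVar fb (Path.Homotopic.Quotient.mk (net.edgePath (x := a) (y := b) h)) =
      tb b - tb a - 2 * Real.pi * (if (a, b) = (A, D) then 1 else 0 : ℕ) := by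
  by_cases hab : (a, b) = (A, D)
  · rw [if_pos hab]
    obtain ⟨rfl, rfl⟩ := Prod.mk.injEq _ _ _ _ ▸ hab
    have key := angVar_edge_cross Complex.I ⟨-2, 4⟩ Complex.I_ne_zero ne_hole_of_mem net
      (x := A) (y := D) h
      (by
        intro t
        rw [neg_mul_lineMap_sub]
        apply slit_lemma (l := 1) (n := 1) zero_le_one
        · show 0 < 1 * (-(Complex.I * (Vx.pos A - ⟨-2, 4⟩))).im +
            1 * (-(Complex.I * (Vx.pos A - ⟨-2, 4⟩))).re
          rw [Complex.neg_re, Complex.neg_im, wb_re, wb_im]; norm_num [px, py]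
        · show 0 < 1 * (-(Complex.I * (Vx.pos D - ⟨-2, 4⟩))).im +
            1 * (-(Complex.I * (Vx.pos D - ⟨-2, 4⟩))).re
          rw [Complex.neg_re, Complex.neg_im, wb_re, wb_im]; norm_num [px, py])
      (by
        show (Complex.I * (Vx.pos A - ⟨-2, 4⟩)).im < 0
        rw [wb_im]; norm_num [px])
      (by
        show 0 < (Complex.I * (Vx.pos D - ⟨-2, 4⟩)).im
        rw [wb_im]; norm_num [px])
    rw [show (2 * Real.pi * ((1 : ℕ) : ℝ)) = 2 * Real.pi by norm_num]
    exact key
  · rw [if_neg hab]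
    obtain ⟨n, -, h0, h1, h2⟩ := slit_facts_b (a, b) h hab
    have key := angVar_edge Complex.I ⟨-2, 4⟩ Complex.I_ne_zero ne_hole_of_mem net
      (x := a) (y := b) h
      (by
        intro t
        rw [mul_lineMap_sub]
        apply slit_lemma (l := (n.1 : ℝ)) (n := (n.2 : ℝ)) (by exact_mod_cast h0)
        · show 0 < (n.1 : ℝ) * (Complex.I * (Vx.pos a - ⟨-2, 4⟩)).im +
            (n.2 : ℝ) * (Complex.I * (Vx.pos a - ⟨-2, 4⟩)).re
          rw [wb_re, wb_im]; exact_mod_cast h1
        · show 0 < (n.1 : ℝ) * (Complex.I * (Vx.pos b - ⟨-2, 4⟩)).im +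
            (n.2 : ℝ) * (Complex.I * (Vx.pos b - ⟨-2, 4⟩)).re
          rw [wb_re, wb_im]; exact_mod_cast h2)
    rw [Nat.cast_zero, mul_zero, sub_zero]
    exact key

/-- The number of times a walk uses the edge from `a` to `b`. -/
def cnt (a b : Vx) {s : net.V} : {t : net.V} → Walk net s t → ℕ
  | _, .nil => 0
  | _, .snoc (y := r) (z := t) q _ => cnt a b q + if ((r : Vx), (t : Vx)) = (a, b) then 1 else 0

theorem cnt_snoc (a b : Vx) {s r t : net.V} (q : Walk net s r) (h : net.Edge r t) :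
    cnt a b (q.snoc h) = cnt a b q + if ((r : Vx), (t : Vx)) = (a, b) then 1 else 0 := rfl

theorem angVar_walk_fa {s t : net.V} (q : Walk net s t) :
    angVar fa (Path.Homotopic.Quotient.mk q.path) =
      ta t - ta s - 2 * Real.pi * (cnt B2 B3 q : ℕ) := by
  induction q with
  | nil =>
    show angVar fa (Path.Homotopic.Quotient.refl _) = ta s - ta s - 2 * Real.pi * ((0 : ℕ) : ℝ)
    rw [angVar_refl]; simp
  | @snoc r t q h ih =>
    show angVar fa (Path.Homotopic.Quotient.mk (q.path.trans (net.edgePath h))) = _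
    rw [Path.Homotopic.Quotient.mk_trans, angVar_trans, ih, angVar_fa h, cnt_snoc]
    push_cast
    ring

theorem angVar_walk_fb {s t : net.V} (q : Walk net s t) :
    angVar fb (Path.Homotopic.Quotient.mk q.path) =
      tb t - tb s - 2 * Real.pi * (cnt A D q : ℕ) := by
  induction q with
  | nil =>
    show angVar fb (Path.Homotopic.Quotient.refl _) = tb s - tb s - 2 * Real.pi * ((0 : ℕ) : ℝ)
    rw [angVar_refl]; simp
  | @snoc r t q h ih =>
    show angVar fb (Path.Homotopic.Quotient.mk (q.path.trans (net.edgePath h))) = _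
    rw [Path.Homotopic.Quotient.mk_trans, angVar_trans, ih, angVar_fb h, cnt_snoc]
    push_cast
    ring

theorem step_facts : ∀ e ∈ edges, e.2 ≠ Vx.u ∧ (e.2 = A → e.1 = Vx.u ∨ e.1 = w) ∧
    (e.1 = A → e.2 = D ∨ e.2 = B1) ∧ (e.1 = Vx.u → e.2 = A) ∧ e.2 ≠ w ∧
    ((e.1 = D ∨ e.1 = Vx.v ∨ e.1 = Vx.x) → e.2 = Vx.v ∨ e.2 = Vx.x) := by decide +kernel

/-- A walk from `u` which uses the edge from `A` to `D` does not use the edge from `B2` to `B3`. -/
theorem walk_invariant {t : net.V} (q : Walk net (Vx.u : Vx) t) :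
    (t : Vx) ≠ w ∧
    ((((t : Vx) = Vx.u ∨ (t : Vx) = A) ∧ cnt A D q = 0 ∧ cnt B2 B3 q = 0) ∨
    (((t : Vx) ≠ Vx.u ∧ (t : Vx) ≠ A) ∧ cnt A D q = 0) ∨
    (((t : Vx) = D ∨ (t : Vx) = Vx.v ∨ (t : Vx) = Vx.x) ∧ cnt B2 B3 q = 0)) := by
  induction q with
  | nil =>
    refine ⟨?_, ?_⟩
    · show (Vx.u : Vx) ≠ w
      decide
    · left; exact ⟨Or.inl rfl, rfl, rfl⟩
  | @snoc r t q h ih =>
    obtain ⟨hf1, hf2, hf3, hf4, hf5, hf6⟩ := step_facts ((r : Vx), (t : Vx)) h
    simp only at hf1 hf2 hf3 hf4 hf5 hf6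
    refine ⟨hf5, ?_⟩
    rw [cnt_snoc, cnt_snoc]
    obtain ⟨ihw, ih⟩ := ih
    have hBD : ((r : Vx), (t : Vx)) = (B2, B3) → (r : Vx) = B2 := fun h => congrArg Prod.fst h
    have hAD : ((r : Vx), (t : Vx)) = (A, D) → (r : Vx) = A := fun h => congrArg Prod.fst h
    rcases ih with ⟨hr, h1, h2⟩ | ⟨⟨hr1, hr2⟩, h1⟩ | ⟨hr, h2⟩
    · have hnB : ((r : Vx), (t : Vx)) ≠ (B2, B3) := by
        intro hc
        have := hBD hc
        rcases hr with hr | hr <;> rw [hr] at this <;> exact absurd this (by decide)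
      rw [if_neg hnB, h1, h2]
      rcases hr with hr | hr
      · left
        have hnA : ((r : Vx), (t : Vx)) ≠ (A, D) := by
          intro hc
          have := hAD hc
          rw [hr] at this
          exact absurd this (by decide)
        rw [if_neg hnA]
        exact ⟨Or.inr (hf4 hr), rfl, rfl⟩
      · rcases hf3 hr with ht | ht
        · right; right
          exact ⟨Or.inl ht, rfl⟩
        · right; left
          have hnA : ((r : Vx), (t : Vx)) ≠ (A, D) := by
            intro hc
            have := congrArg Prod.snd hc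
            simp only at this
            rw [ht] at this
            exact absurd this (by decide)
          rw [if_neg hnA, ht]
          exact ⟨⟨by decide, by decide⟩, rfl⟩
    · right; left
      have hnA : ((r : Vx), (t : Vx)) ≠ (A, D) := fun hc => hr2 (hAD hc)
      rw [if_neg hnA, h1]
      refine ⟨⟨hf1, ?_⟩, rfl⟩
      intro ht
      rcases hf2 ht with h3 | h3
      · exact hr1 h3
      · exact ihw h3
    · right; right
      have hnB : ((r : Vx), (t : Vx)) ≠ (B2, B3) := by
        intro hc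
        have := hBD hc
        rcases hr with hr | hr | hr <;> rw [hr] at this <;> exact absurd this (by decide)
      rw [if_neg hnB, h2]
      exact ⟨Or.inr (hf6 hr), rfl⟩

/-! ### The walks -/

theorem hUA : net.Edge Vx.u A := by show (Vx.u, A) ∈ edges; decide
theorem hAD : net.Edge A D := by show (A, D) ∈ edges; decide
theorem hAB1 : net.Edge A B1 := by show (A, B1) ∈ edges; decide
theorem hB1B2 : net.Edge B1 B2 := by show (B1, B2) ∈ edges; decide
theorem hB2B3 : net.Edge B2 B3 := by show (B2, B3) ∈ edges; decide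
theorem hB3B1 : net.Edge B3 B1 := by show (B3, B1) ∈ edges; decide
theorem hB2D : net.Edge B2 D := by show (B2, D) ∈ edges; decide
theorem hDv : net.Edge D Vx.v := by show (D, Vx.v) ∈ edges; decide

/-- the walk that runs around the triangle `k` times -/
def sWalk : ℕ → Walk net Vx.u B2
  | 0 => ((Walk.nil.snoc hUA).snoc hAB1).snoc hB1B2
  | k + 1 => (((sWalk k).snoc hB2B3).snoc hB3B1).snoc hB1B2

/-- the walk to `v` that runs around the triangle `k` times -/
def qWalk (k : ℕ) : Walk net Vx.u Vx.v := ((sWalk k).snoc hB2D).snoc hDv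

/-- the walk that avoids the triangle -/
def qWalk' : Walk net Vx.u Vx.v := ((Walk.nil.snoc hUA).snoc hAD).snoc hDv

theorem highway_step {s r t : net.V} (q : Walk net s r) (h : net.Edge r t)
    (hq : q.IsHighway) (h1 : q.previous ≠ some (Vx.e2 r) ∨ (t : Vx) ≠ Vx.f2 r) :
    (q.snoc h).IsHighway := by
  refine ⟨hq, ?_⟩
  rintro ⟨-, h2, h3⟩
  rcases h1 with h1 | h1
  · exact h1 h2
  · exact h1 h3

theorem sWalk_highway : ∀ k, (sWalk k).IsHighway
  | 0 => by
    unfold sWalk
    refine highway_step _ _ (highway_step _ _ (highway_step _ _ trivial ?_) ?_) ?_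
    · right; show (A : Vx) ≠ Vx.f2 Vx.u; decide
    · right; show (B1 : Vx) ≠ Vx.f2 A; decide
    · right; show (B2 : Vx) ≠ Vx.f2 B1; decide
  | k + 1 => by
    unfold sWalk
    refine highway_step _ _ (highway_step _ _ (highway_step _ _ (sWalk_highway k) ?_) ?_) ?_
    · right; show (B3 : Vx) ≠ Vx.f2 B2; decide
    · right; show (B1 : Vx) ≠ Vx.f2 B3; decide
    · right; show (B2 : Vx) ≠ Vx.f2 B1; decide

theorem sWalk_previous : ∀ k, (sWalk k).previous = some (B1 : Vx)
  | 0 => rfl
  | _ + 1 => rfl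

theorem qWalk_highway (k : ℕ) : (qWalk k).IsHighway := by
  refine highway_step _ _ (highway_step _ _ (sWalk_highway k) ?_) ?_
  · left
    rw [sWalk_previous]
    show some B1 ≠ some (Vx.e2 B2)
    decide
  · right; show (Vx.v : Vx) ≠ Vx.f2 D; decide

theorem qWalk'_highway : qWalk'.IsHighway := by
  refine highway_step _ _ (highway_step _ _ (highway_step _ _ trivial ?_) ?_) ?_
  · right; show (A : Vx) ≠ Vx.f2 Vx.u; decide
  · left; show some Vx.u ≠ some (Vx.e2 A); decide
  · right; show (Vx.v : Vx) ≠ Vx.f2 D; decide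

/-- the class of the closed path around the triangle -/
noncomputable def cQ : Path.Homotopic.Quotient (net.pt B2) (net.pt B2) :=
  ((Path.Homotopic.Quotient.mk (net.edgePath hB2B3)).trans
    (Path.Homotopic.Quotient.mk (net.edgePath hB3B1))).trans
      (Path.Homotopic.Quotient.mk (net.edgePath hB1B2))

theorem sWalk_succ (k : ℕ) : Path.Homotopic.Quotient.mk (sWalk (k + 1)).path =
    (Path.Homotopic.Quotient.mk (sWalk k).path).trans cQ := by
  have h : (sWalk (k + 1)).path = (((sWalk k).path.trans (net.edgePath hB2B3)).trans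
    (net.edgePath hB3B1)).trans (net.edgePath hB1B2) := rfl
  rw [h, cQ, Path.Homotopic.Quotient.mk_trans, Path.Homotopic.Quotient.mk_trans,
    Path.Homotopic.Quotient.mk_trans]
  simp only [Path.Homotopic.Quotient.trans_assoc]

theorem qWalk_class (p : Path (net.pt Vx.u) (net.pt Vx.v)) (k : ℕ) :
    homologyClass ((qWalk k).path.trans p.symm) =
      cl ((Path.Homotopic.Quotient.mk (sWalk k).path).trans
        (((Path.Homotopic.Quotient.mk (net.edgePath hB2D)).trans
          (Path.Homotopic.Quotient.mk (net.edgePath hDv))).trans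
            (Path.Homotopic.Quotient.mk p).symm)) := by
  rw [homologyClass_trans_symm]
  have h : (qWalk k).path = ((sWalk k).path.trans (net.edgePath hB2D)).trans
    (net.edgePath hDv) := rfl
  rw [h, Path.Homotopic.Quotient.mk_trans, Path.Homotopic.Quotient.mk_trans]
  simp only [Path.Homotopic.Quotient.trans_assoc]

theorem wind_fa_class (p : Path (net.pt Vx.u) (net.pt Vx.v)) (q : Walk net Vx.u Vx.v) :
    wind fa _ (homologyClass (q.path.trans p.symm)) =
      ta Vx.v - ta Vx.u - 2 * Real.pi * (cnt B2 B3 q : ℕ) -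
        angVar fa (Path.Homotopic.Quotient.mk p) := by
  rw [homologyClass_trans_symm, wind_cl, angVar_trans, angVar_symm, angVar_walk_fa]
  ring

theorem wind_fb_class (p : Path (net.pt Vx.u) (net.pt Vx.v)) (q : Walk net Vx.u Vx.v) :
    wind fb _ (homologyClass (q.path.trans p.symm)) =
      tb Vx.v - tb Vx.u - 2 * Real.pi * (cnt A D q : ℕ) -
        angVar fb (Path.Homotopic.Quotient.mk p) := by
  rw [homologyClass_trans_symm, wind_cl, angVar_trans, angVar_symm, angVar_walk_fb]
  ring

theorem not_polyhedral (p : Path (net.pt Vx.u) (net.pt Vx.v)) : ¬ IsPolyhedral (net.H p) := by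
  intro hpoly
  have hprog : ∀ k : ℕ, homologyClass ((qWalk 0).path.trans p.symm) +
      k • (homologyClass ((qWalk 1).path.trans p.symm) -
        homologyClass ((qWalk 0).path.trans p.symm)) ∈ net.H p := by
    intro k
    have h := cl_progression (fun k => Path.Homotopic.Quotient.mk (sWalk k).path) cQ sWalk_succ
      (((Path.Homotopic.Quotient.mk (net.edgePath hB2D)).trans
          (Path.Homotopic.Quotient.mk (net.edgePath hDv))).trans
            (Path.Homotopic.Quotient.mk p).symm) k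
    rw [qWalk_class, qWalk_class, ← h, ← qWalk_class]
    exact ⟨qWalk k, qWalk_highway k, rfl⟩
  have hq' : homologyClass (qWalk'.path.trans p.symm) ∈ net.H p :=
    ⟨qWalk', qWalk'_highway, rfl⟩
  obtain ⟨q, -, hq⟩ := hpoly.add_mem hprog hq'
  have ha := congrArg (wind fa _) hq
  have hb := congrArg (wind fb _) hq
  rw [map_add, map_sub, wind_fa_class, wind_fa_class, wind_fa_class, wind_fa_class] at ha
  rw [map_add, map_sub, wind_fb_class, wind_fb_class, wind_fb_class, wind_fb_class] at hb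
  have e1 : cnt B2 B3 (qWalk 0) = 0 := rfl
  have e2 : cnt B2 B3 (qWalk 1) = 1 := rfl
  have e3 : cnt B2 B3 qWalk' = 0 := rfl
  have e4 : cnt A D (qWalk 0) = 0 := rfl
  have e5 : cnt A D (qWalk 1) = 0 := rfl
  have e6 : cnt A D qWalk' = 1 := rfl
  rw [e1, e2, e3] at ha
  rw [e4, e5, e6] at hb
  have hpi : (2 * Real.pi) ≠ 0 := by positivity
  have ha' : (cnt B2 B3 q : ℝ) = 1 := by
    apply mul_left_cancel₀ hpi
    push_cast at ha
    linarith
  have hb' : (cnt A D q : ℝ) = 1 := by
    apply mul_left_cancel₀ hpi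
    push_cast at hb
    linarith
  have ha'' : cnt B2 B3 q = 1 := by exact_mod_cast ha'
  have hb'' : cnt A D q = 1 := by exact_mod_cast hb'
  obtain ⟨-, ⟨-, h1, h2⟩ | ⟨-, h1⟩ | ⟨-, h2⟩⟩ := walk_invariant q
  · omega
  · omega
  · omega

end Pool.Agent.Lib.MP_3d6951_co
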