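import Pool.Agent.Lib.MP_3d6951_co.Homology

set_option autoImplicit false

/-!
# Elementary plane geometry
-/

open Set

namespace Pool.Agent.Lib.MP_3d6951_co

/-! ### The surface -/

theorem norm_sq_complex (z : ℂ) : ‖z‖ ^ 2 = z.re ^ 2 + z.im ^ 2 := by
  rw [← Complex.normSq_eq_norm_sq, Complex.normSq_apply]; ring

/-- An open subset of the surface. -/
theorem mem_interior_surface {z : ℂ} (h₀ : z.re ^ 2 + z.im ^ 2 < 400)
    (h₁ : 1 < z.re ^ 2 + z.im ^ 2) (h₂ : 1 < (z.re + 2) ^ 2 + (z.im - 4) ^ 2) :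
    z ∈ interior surface := by
  rw [mem_interior]
  refine ⟨{z : ℂ | z.re ^ 2 + z.im ^ 2 < 400 ∧ 1 < z.re ^ 2 + z.im ^ 2 ∧
    1 < (z.re + 2) ^ 2 + (z.im - 4) ^ 2}, ?_, ?_, ⟨h₀, h₁, h₂⟩⟩
  · rintro w ⟨hw₀, hw₁, hw₂⟩
    refine ⟨?_, ?_⟩
    · rw [Metric.mem_closedBall, dist_zero_right]
      have := norm_sq_complex w
      nlinarith [norm_nonneg w]
    · rintro (hw | hw)
      · rw [Metric.mem_ball, dist_zero_right] at hw
        have := norm_sq_complex w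
        nlinarith [norm_nonneg w]
      · rw [Metric.mem_ball, dist_eq_norm] at hw
        have := norm_sq_complex (w - ⟨-2, 4⟩)
        simp only [Complex.sub_re, Complex.sub_im] at this
        nlinarith [norm_nonneg (w - ⟨-2, 4⟩)]
  · apply IsOpen.and
    · exact isOpen_lt (by fun_prop) (by fun_prop)
    · apply IsOpen.and
      · exact isOpen_lt (by fun_prop) (by fun_prop)
      · exact isOpen_lt (by fun_prop) (by fun_prop)

theorem mem_surface {z : ℂ} (h₀ : z.re ^ 2 + z.im ^ 2 ≤ 400)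
    (h₁ : 1 ≤ z.re ^ 2 + z.im ^ 2) (h₂ : 1 ≤ (z.re + 2) ^ 2 + (z.im - 4) ^ 2) :
    z ∈ surface := by
  refine ⟨?_, ?_⟩
  · rw [Metric.mem_closedBall, dist_zero_right]
    have := norm_sq_complex z
    nlinarith [norm_nonneg z]
  · rintro (hw | hw)
    · rw [Metric.mem_ball, dist_zero_right] at hw
      have := norm_sq_complex z
      nlinarith [norm_nonneg z]
    · rw [Metric.mem_ball, dist_eq_norm] at hw
      have := norm_sq_complex (z - ⟨-2, 4⟩)
      simp only [Complex.sub_re, Complex.sub_im] at this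
      nlinarith [norm_nonneg (z - ⟨-2, 4⟩)]

theorem of_mem_surface {z : ℂ} (h : z ∈ surface) :
    1 ≤ z.re ^ 2 + z.im ^ 2 ∧ 1 ≤ (z.re + 2) ^ 2 + (z.im - 4) ^ 2 := by
  obtain ⟨-, h⟩ := h
  rw [mem_union, not_or] at h
  obtain ⟨h1, h2⟩ := h
  rw [Metric.mem_ball, dist_zero_right, not_lt] at h1
  rw [Metric.mem_ball, dist_eq_norm, not_lt] at h2
  have e1 := norm_sq_complex z
  have e2 := norm_sq_complex (z - ⟨-2, 4⟩)
  simp only [Complex.sub_re, Complex.sub_im] at e2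
  constructor <;> nlinarith

theorem of_mem_interior_surface {z : ℂ} (h : z ∈ interior surface) :
    z.re ^ 2 + z.im ^ 2 < 400 ∧ 1 < z.re ^ 2 + z.im ^ 2 ∧
      1 < (z.re + 2) ^ 2 + (z.im - 4) ^ 2 := by
  have h0 : z ∈ interior (Metric.closedBall (0 : ℂ) 20) :=
    interior_mono (fun w hw => hw.1) h
  have h1 : z ∈ interior (Metric.ball (0 : ℂ) 1)ᶜ :=
    interior_mono (fun w hw hw' => hw.2 (Or.inl hw')) h
  have h2 : z ∈ interior (Metric.ball (⟨-2, 4⟩ : ℂ) 1)ᶜ :=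
    interior_mono (fun w hw hw' => hw.2 (Or.inr hw')) h
  rw [interior_closedBall _ (by norm_num), Metric.mem_ball, dist_zero_right] at h0
  rw [interior_compl, closure_ball _ (by norm_num), mem_compl_iff, Metric.mem_closedBall,
    not_le] at h1 h2
  rw [dist_zero_right] at h1
  rw [dist_eq_norm] at h2
  have e1 := norm_sq_complex z
  have e2 := norm_sq_complex (z - ⟨-2, 4⟩)
  simp only [Complex.sub_re, Complex.sub_im] at e2
  refine ⟨?_, ?_, ?_⟩ <;> nlinarith [norm_nonneg z]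

/-! ### Open segments -/

theorem exists_of_mem_openSegment {p q z : ℂ} (h : z ∈ openSegment ℝ p q) :
    ∃ t : ℝ, 0 < t ∧ t < 1 ∧ z.re = (1 - t) * p.re + t * q.re ∧
      z.im = (1 - t) * p.im + t * q.im := by
  rw [openSegment_eq_image] at h
  obtain ⟨t, ⟨h0, h1⟩, rfl⟩ := h
  refine ⟨t, h0, h1, ?_, ?_⟩ <;> simp

/-- Points of an open segment between points of the closed disc are in the open disc. -/
theorem outer_lemma {p₀ p₁ q₀ q₁ t R : ℝ} (h0 : 0 < t) (h1 : t < 1)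
    (hp : p₀ ^ 2 + p₁ ^ 2 ≤ R) (hq : q₀ ^ 2 + q₁ ^ 2 ≤ R)
    (hne : 0 < (p₀ - q₀) ^ 2 + (p₁ - q₁) ^ 2) :
    ((1 - t) * p₀ + t * q₀) ^ 2 + ((1 - t) * p₁ + t * q₁) ^ 2 < R := by
  have e : ((1 - t) * p₀ + t * q₀) ^ 2 + ((1 - t) * p₁ + t * q₁) ^ 2 =
      (1 - t) * (p₀ ^ 2 + p₁ ^ 2) + t * (q₀ ^ 2 + q₁ ^ 2) -
        t * (1 - t) * ((p₀ - q₀) ^ 2 + (p₁ - q₁) ^ 2) := by ring
  have h2 : 0 < t * (1 - t) := mul_pos h0 (by linarith)
  have h3 := mul_pos h2 hne
  rw [e]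
  nlinarith [mul_nonneg h0.le (sub_nonneg.2 hq), mul_nonneg (by linarith : 0 ≤ 1 - t)
    (sub_nonneg.2 hp)]

/-- A certificate for an open segment to avoid the closed unit disc. -/
theorem hole_lemma {p₀ p₁ q₀ q₁ t n₀ n₁ : ℝ} (h0 : 0 < t) (h1 : t < 1)
    (hp : 0 < n₀ * p₀ + n₁ * p₁) (hq : 0 < n₀ * q₀ + n₁ * q₁)
    (hp' : n₀ ^ 2 + n₁ ^ 2 ≤ (n₀ * p₀ + n₁ * p₁) ^ 2)
    (hq' : n₀ ^ 2 + n₁ ^ 2 ≤ (n₀ * q₀ + n₁ * q₁) ^ 2)
    (hpq : 2 * (n₀ ^ 2 + n₁ ^ 2) < (n₀ * p₀ + n₁ * p₁) ^ 2 + (n₀ * q₀ + n₁ * q₁) ^ 2) :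
    1 < ((1 - t) * p₀ + t * q₀) ^ 2 + ((1 - t) * p₁ + t * q₁) ^ 2 := by
  set a := n₀ * p₀ + n₁ * p₁ with ha
  set b := n₀ * q₀ + n₁ * q₁ with hb
  set s := Real.sqrt (n₀ ^ 2 + n₁ ^ 2) with hs
  have hnn : 0 ≤ n₀ ^ 2 + n₁ ^ 2 := by positivity
  have hs2 : s ^ 2 = n₀ ^ 2 + n₁ ^ 2 := Real.sq_sqrt hnn
  have hs0 : 0 ≤ s := Real.sqrt_nonneg _
  have has : s ≤ a := Real.sqrt_le_iff.2 ⟨hp.le, hp'⟩
  have hbs : s ≤ b := Real.sqrt_le_iff.2 ⟨hq.le, hq'⟩
  have hor : s < a ∨ s < b := by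
    by_contra hcon
    push Not at hcon
    have e1 : a = s := le_antisymm hcon.1 has
    have e2 : b = s := le_antisymm hcon.2 hbs
    rw [e1, e2, ← hs2] at hpq
    linarith
  have hF : s < (1 - t) * a + t * b := by
    rcases hor with h | h
    · nlinarith
    · nlinarith
  set x := (1 - t) * p₀ + t * q₀ with hx
  set y := (1 - t) * p₁ + t * q₁ with hy
  have hFxy : (1 - t) * a + t * b = n₀ * x + n₁ * y := by
    rw [ha, hb, hx, hy]; ring
  rw [hFxy] at hF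
  have hCS : (n₀ * x + n₁ * y) ^ 2 ≤ (n₀ ^ 2 + n₁ ^ 2) * (x ^ 2 + y ^ 2) := by
    nlinarith [sq_nonneg (n₀ * y - n₁ * x)]
  have hF2 : s ^ 2 < (n₀ * x + n₁ * y) ^ 2 := by
    apply pow_lt_pow_left₀ hF hs0 (by norm_num)
  rw [hs2] at hF2
  have h3 : (n₀ ^ 2 + n₁ ^ 2) * 1 < (n₀ ^ 2 + n₁ ^ 2) * (x ^ 2 + y ^ 2) := by linarith
  have h4 : 0 < n₀ ^ 2 + n₁ ^ 2 := by
    rcases hnn.eq_or_lt with h | h
    · rw [← h] at h3; linarith
    · exact h
  exact lt_of_mul_lt_mul_left h3 h4.le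

/-- The orientation determinant. -/
def orient (p q z : ℂ) : ℝ := (q.re - p.re) * (z.im - p.im) - (q.im - p.im) * (z.re - p.re)

theorem orient_openSegment {p q z : ℂ} (h : z ∈ openSegment ℝ p q) : orient p q z = 0 := by
  obtain ⟨t, -, -, h1, h2⟩ := exists_of_mem_openSegment h
  unfold orient
  rw [h1, h2]; ring

theorem orient_convex {p q r s z : ℂ} (h : z ∈ openSegment ℝ r s) :
    ∃ t : ℝ, 0 < t ∧ t < 1 ∧ orient p q z = (1 - t) * orient p q r + t * orient p q s := by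
  obtain ⟨t, h0, h1, h2, h3⟩ := exists_of_mem_openSegment h
  refine ⟨t, h0, h1, ?_⟩
  unfold orient
  rw [h2, h3]; ring

theorem disjoint_openSegment {p q r s : ℂ}
    (h : (0 ≤ orient p q r ∧ 0 ≤ orient p q s ∧ 0 < orient p q r + orient p q s) ∨
      (orient p q r ≤ 0 ∧ orient p q s ≤ 0 ∧ orient p q r + orient p q s < 0)) :
    Disjoint (openSegment ℝ p q) (openSegment ℝ r s) := by
  rw [Set.disjoint_left]
  intro z hz hz'
  have h0 := orient_openSegment hz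
  obtain ⟨t, ht0, ht1, ht⟩ := orient_convex (p := p) (q := q) hz'
  rw [h0] at ht
  have h1t : 0 < 1 - t := by linarith
  rcases h with ⟨h1, h2, h3⟩ | ⟨h1, h2, h3⟩
  · rcases h1.eq_or_lt with h4 | h4
    · have : 0 < orient p q s := by linarith
      nlinarith [mul_pos ht0 this]
    · nlinarith [mul_pos h1t h4, mul_nonneg ht0.le h2]
  · rcases h1.eq_or_lt with h4 | h4
    · have : orient p q s < 0 := by linarith
      nlinarith [mul_pos ht0 (neg_pos.2 this)]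
    · nlinarith [mul_pos h1t (neg_pos.2 h4), mul_nonneg ht0.le (neg_nonneg.2 h2)]

theorem left_not_mem_openSegment' {p q : ℂ} (h : p ≠ q) : p ∉ openSegment ℝ p q := by
  intro hp
  exact h (left_mem_openSegment_iff.1 hp)

theorem right_not_mem_openSegment' {p q : ℂ} (h : p ≠ q) : q ∉ openSegment ℝ p q := by
  intro hp
  exact h (right_mem_openSegment_iff.1 hp)

/-! ### Counterclockwise order -/

theorem arg_div_pos {z w : ℂ} (h : 0 < z.re * w.im - z.im * w.re) :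
    0 < Complex.arg (w / z) ∧ Complex.arg (w / z) < Real.pi ∧
      w = ‖w / z‖ * Complex.exp (Complex.arg (w / z) * Complex.I) * z ∧ z ≠ 0 := by
  have hz : z ≠ 0 := by
    rintro rfl
    simp at h
  have hn : 0 < Complex.normSq z := Complex.normSq_pos.2 hz
  have him : 0 < (w / z).im := by
    rw [Complex.div_im]
    have : w.im * z.re / Complex.normSq z - w.re * z.im / Complex.normSq z =
        (z.re * w.im - z.im * w.re) / Complex.normSq z := by ring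
    rw [this]
    positivity
  refine ⟨?_, ?_, ?_, hz⟩
  · have h1 : 0 ≤ Complex.arg (w / z) := Complex.arg_nonneg_iff.2 him.le
    rcases h1.eq_or_lt with h2 | h2
    · exfalso
      have := Complex.arg_eq_zero_iff.1 h2.symm
      linarith [this.2]
    · exact h2
  · have := Complex.arg_lt_pi_iff (z := w / z)
    rw [this]
    right
    exact him.ne'
  · rw [Complex.norm_mul_exp_arg_mul_I, div_mul_cancel₀ _ hz]

theorem counterclockwise_of_cross (z : Fin 4 → ℂ)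
    (h₀ : 0 < (z 0).re * (z 1).im - (z 0).im * (z 1).re)
    (h₁ : 0 < (z 1).re * (z 2).im - (z 1).im * (z 2).re)
    (h₂ : 0 < (z 2).re * (z 3).im - (z 2).im * (z 3).re)
    (h₃ : 0 < (z 3).re * (z 0).im - (z 3).im * (z 0).re) : Counterclockwise z := by
  obtain ⟨a1, a2, a3, a4⟩ := arg_div_pos h₀
  obtain ⟨b1, b2, b3, b4⟩ := arg_div_pos h₁
  obtain ⟨c1, c2, c3, c4⟩ := arg_div_pos h₂
  obtain ⟨d1, d2, d3, d4⟩ := arg_div_pos h₃
  set α := Complex.arg (z 1 / z 0) with hα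
  set β := Complex.arg (z 2 / z 1) with hβ
  set γ := Complex.arg (z 3 / z 2) with hγ
  set δ := Complex.arg (z 0 / z 3) with hδ
  set t := Complex.arg (z 0) with ht
  have e0 : z 0 = ‖z 0‖ * Complex.exp (t * Complex.I) := (Complex.norm_mul_exp_arg_mul_I _).symm
  have e1 : z 1 = ((‖z 1 / z 0‖ * ‖z 0‖ : ℝ) : ℂ) * Complex.exp (((t + α : ℝ) : ℂ) * Complex.I) := by
    calc z 1 = ‖z 1 / z 0‖ * Complex.exp (α * Complex.I) * z 0 := a3
      _ = ‖z 1 / z 0‖ * Complex.exp (α * Complex.I) * (‖z 0‖ * Complex.exp (t * Complex.I)) := by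
          rw [← e0]
      _ = _ := by
        push_cast
        rw [add_mul, Complex.exp_add]
        ring
  have e2 : z 2 = ((‖z 2 / z 1‖ * (‖z 1 / z 0‖ * ‖z 0‖) : ℝ) : ℂ) *
      Complex.exp (((t + α + β : ℝ) : ℂ) * Complex.I) := by
    calc z 2 = ‖z 2 / z 1‖ * Complex.exp (β * Complex.I) * z 1 := b3
      _ = ‖z 2 / z 1‖ * Complex.exp (β * Complex.I) *
          (((‖z 1 / z 0‖ * ‖z 0‖ : ℝ) : ℂ) * Complex.exp (((t + α : ℝ) : ℂ) * Complex.I)) := by
          rw [← e1]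
      _ = _ := by
        push_cast
        rw [add_mul _ (β : ℂ), Complex.exp_add]
        ring
  have e3 : z 3 = ((‖z 3 / z 2‖ * (‖z 2 / z 1‖ * (‖z 1 / z 0‖ * ‖z 0‖)) : ℝ) : ℂ) *
      Complex.exp (((t + α + β + γ : ℝ) : ℂ) * Complex.I) := by
    calc z 3 = ‖z 3 / z 2‖ * Complex.exp (γ * Complex.I) * z 2 := c3
      _ = ‖z 3 / z 2‖ * Complex.exp (γ * Complex.I) *
          (((‖z 2 / z 1‖ * (‖z 1 / z 0‖ * ‖z 0‖) : ℝ) : ℂ) *
            Complex.exp (((t + α + β : ℝ) : ℂ) * Complex.I)) := by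
          rw [← e2]
      _ = _ := by
        push_cast
        rw [add_mul _ (γ : ℂ), Complex.exp_add]
        ring
  have p0 : 0 < ‖z 0‖ := norm_pos_iff.2 a4
  have p1 : 0 < ‖z 1 / z 0‖ := norm_pos_iff.2 (div_ne_zero b4 a4)
  have p2 : 0 < ‖z 2 / z 1‖ := norm_pos_iff.2 (div_ne_zero c4 b4)
  have p3 : 0 < ‖z 3 / z 2‖ := norm_pos_iff.2 (div_ne_zero d4 c4)
  -- the four angles add up to `2 π`
  have hsum : α + β + γ + δ = 2 * Real.pi := by
    have h1 : Complex.exp (((α + β + γ + δ : ℝ) : ℂ) * Complex.I) = 1 := by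
      have e4 : z 0 = ‖z 0 / z 3‖ * Complex.exp (δ * Complex.I) * z 3 := d3
      have e5 : z 0 = ((‖z 0 / z 3‖ * (‖z 3 / z 2‖ * (‖z 2 / z 1‖ * (‖z 1 / z 0‖ * ‖z 0‖))) : ℝ) : ℂ) *
          Complex.exp (((t + α + β + γ + δ : ℝ) : ℂ) * Complex.I) := by
        calc z 0 = ‖z 0 / z 3‖ * Complex.exp (δ * Complex.I) * z 3 := d3
          _ = ‖z 0 / z 3‖ * Complex.exp (δ * Complex.I) *
              (((‖z 3 / z 2‖ * (‖z 2 / z 1‖ * (‖z 1 / z 0‖ * ‖z 0‖)) : ℝ) : ℂ) *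
              Complex.exp (((t + α + β + γ : ℝ) : ℂ) * Complex.I)) := by
              rw [← e3]
          _ = _ := by
            push_cast
            rw [add_mul _ (δ : ℂ), Complex.exp_add]
            ring
      have e6 : ‖z 0 / z 3‖ * (‖z 3 / z 2‖ * (‖z 2 / z 1‖ * (‖z 1 / z 0‖ * ‖z 0‖))) = ‖z 0‖ := by
        rw [norm_div, norm_div, norm_div, norm_div]
        have q1 : ‖z 1‖ ≠ 0 := norm_ne_zero_iff.2 b4
        have q2 : ‖z 2‖ ≠ 0 := norm_ne_zero_iff.2 c4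
        have q3 : ‖z 3‖ ≠ 0 := norm_ne_zero_iff.2 d4
        field_simp
      rw [e6] at e5
      have e7 : ((‖z 0‖ : ℝ) : ℂ) * Complex.exp (t * Complex.I) *
          Complex.exp (((α + β + γ + δ : ℝ) : ℂ) * Complex.I) = ‖z 0‖ * Complex.exp (t * Complex.I) := by
        rw [← e0]
        conv_rhs => rw [e5]
        conv_lhs => rw [e0]
        rw [mul_assoc, ← Complex.exp_add]
        congr 2
        push_cast
        ring
      have e8 : ((‖z 0‖ : ℝ) : ℂ) * Complex.exp (t * Complex.I) ≠ 0 := by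
        rw [← e0]; exact a4
      exact mul_left_cancel₀ e8 (by rw [e7, mul_one])
    rw [Complex.exp_eq_one_iff] at h1
    obtain ⟨n, hn⟩ := h1
    have h2 : ((α + β + γ + δ : ℝ) : ℂ) = ((n * (2 * Real.pi) : ℝ) : ℂ) := by
      have h3 : ((α + β + γ + δ : ℝ) : ℂ) * Complex.I = ((n * (2 * Real.pi) : ℝ) : ℂ) * Complex.I := by
        rw [hn]; push_cast; ring
      exact mul_right_cancel₀ Complex.I_ne_zero h3
    have h4 : α + β + γ + δ = n * (2 * Real.pi) := by exact_mod_cast h2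
    have hpi := Real.pi_pos
    have h5 : (0 : ℝ) < n := by
      by_contra hcon
      push Not at hcon
      have : (n : ℝ) * (2 * Real.pi) ≤ 0 := mul_nonpos_of_nonpos_of_nonneg hcon (by linarith)
      linarith
    have h6 : (n : ℝ) < 2 := by
      by_contra hcon
      push Not at hcon
      nlinarith
    have h7 : n = 1 := by
      have h5' : 0 < n := by exact_mod_cast h5
      have h6' : n < 2 := by exact_mod_cast h6
      omega
    rw [h4, h7]; simp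
  refine ⟨![t, t + α, t + α + β, t + α + β + γ], ?_, ?_, ?_, ?_, ?_⟩
  · intro k
    fin_cases k
    · exact ⟨‖z 0‖, p0, by simpa using e0⟩
    · exact ⟨‖z 1 / z 0‖ * ‖z 0‖, by positivity, by simpa using e1⟩
    · exact ⟨‖z 2 / z 1‖ * (‖z 1 / z 0‖ * ‖z 0‖), by positivity, by simpa using e2⟩
    · exact ⟨‖z 3 / z 2‖ * (‖z 2 / z 1‖ * (‖z 1 / z 0‖ * ‖z 0‖)), by positivity, by simpa using e3⟩
  · simp; exact a1
  · simp; exact b1
  · simp; exact c1
  · simp; linarith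

end Pool.Agent.Lib.MP_3d6951_co
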