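import Pool.Agent.Lib.MP_3d6951_co.Winding

set_option autoImplicit false

/-!
# Computations in the abelianised fundamental group
-/

open Set

namespace Pool.Agent.Lib.MP_3d6951_co

variable {X : Type} [TopologicalSpace X]

/-- The homology class of a homotopy class of closed paths. -/
noncomputable def cl {x : X} (γ : Path.Homotopic.Quotient x x) : H₁ x :=
  Additive.ofMul (Abelianization.of (FundamentalGroup.fromPath γ))

theorem cl_trans {x : X} (γ δ : Path.Homotopic.Quotient x x) :
    cl (γ.trans δ) = cl γ + cl δ := by
  have h : FundamentalGroup.fromPath (γ.trans δ) =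
      FundamentalGroup.fromPath δ * FundamentalGroup.fromPath γ := rfl
  unfold cl
  rw [h, map_mul, ofMul_mul, add_comm]

theorem homologyClass_trans_symm {x y : X} (γ p : Path x y) :
    homologyClass (γ.trans p.symm) = cl ((Path.Homotopic.Quotient.mk γ).trans
      (Path.Homotopic.Quotient.mk p).symm) := by
  unfold homologyClass cl
  rw [Path.Homotopic.Quotient.mk_trans, Path.Homotopic.Quotient.mk_symm]

theorem cl_insert {x y : X} (s : Path.Homotopic.Quotient x y) (c : Path.Homotopic.Quotient y y)
    (r : Path.Homotopic.Quotient y x) :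
    cl ((s.trans c).trans r) = cl ((s.trans c).trans s.symm) + cl (s.trans r) := by
  rw [← cl_trans]
  congr 1
  grind

theorem cl_conj {x y : X} (s : Path.Homotopic.Quotient x y) (c : Path.Homotopic.Quotient y y) :
    cl (((s.trans c).trans c).trans (s.trans c).symm) = cl ((s.trans c).trans s.symm) := by
  congr 1
  have h : (s.trans c).symm = c.symm.trans s.symm := by
    have h1 : (s.trans c).symm = ((s.trans c).symm.trans (s.trans c)).trans
        (c.symm.trans s.symm) := by
      have : (s.trans c).trans (c.symm.trans s.symm) = Path.Homotopic.Quotient.refl x := by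
        grind
      rw [Path.Homotopic.Quotient.trans_assoc, this, Path.Homotopic.Quotient.trans_refl]
    rw [h1, Path.Homotopic.Quotient.symm_trans, Path.Homotopic.Quotient.refl_trans]
  rw [h]
  grind

/-- The classes of the paths `s c^k r` form an arithmetic progression. -/
theorem cl_progression {x y : X} (s : ℕ → Path.Homotopic.Quotient x y)
    (c : Path.Homotopic.Quotient y y) (hs : ∀ k, s (k + 1) = (s k).trans c)
    (r : Path.Homotopic.Quotient y x) (k : ℕ) :
    cl ((s k).trans r) = cl ((s 0).trans r) + k • (cl ((s 1).trans r) - cl ((s 0).trans r)) := by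
  have h1 : ∀ k, cl (((s k).trans c).trans (s k).symm) = cl (((s 0).trans c).trans (s 0).symm) := by
    intro k
    induction k with
    | zero => rfl
    | succ k ih => rw [hs k, cl_conj, ih]
  have h2 : ∀ k, cl ((s (k + 1)).trans r) =
      cl (((s 0).trans c).trans (s 0).symm) + cl ((s k).trans r) := by
    intro k
    rw [hs k, cl_insert, h1]
  have h3 := h2 0
  rw [Nat.zero_add] at h3
  rw [h3, add_sub_cancel_right]
  induction k with
  | zero => simp
  | succ k ih =>
    rw [h2 k, ih, succ_nsmul]
    abel

theorem angVar_symm (f : C(X, Real.Angle)) {x y : X} (γ : Path.Homotopic.Quotient x y) :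
    angVar f γ.symm = - angVar f γ := by
  have h := angVar_trans f γ γ.symm
  rw [Path.Homotopic.Quotient.trans_symm, angVar_refl] at h
  linarith

theorem wind_cl (f : C(X, Real.Angle)) {x : X} (γ : Path.Homotopic.Quotient x x) :
    wind f x (cl γ) = angVar f γ := rfl

/-- The argument with the recession cone: a polyhedral set which contains an arithmetic progression
`a + k • d` and a point `b` also contains `b + d`. -/
theorem IsPolyhedral.add_mem {A : Type} [AddCommGroup A] {Y : Set A} (hY : IsPolyhedral Y)
    {a b d : A} (ha : ∀ k : ℕ, a + k • d ∈ Y) (hb : b ∈ Y) : b + d ∈ Y := by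
  obtain ⟨m, ℓ, c, rfl⟩ := hY
  intro i
  have h1 : ∀ k : ℕ, ℓ i a + k * ℓ i d ≤ c i := by
    intro k
    have := ha k i
    simpa [map_add, map_nsmul] using this
  have h2 : ℓ i d ≤ 0 := by
    by_contra h
    push Not at h
    obtain ⟨k, hk⟩ := exists_nat_gt ((c i - ℓ i a) / ℓ i d)
    rw [div_lt_iff₀ h] at hk
    have := h1 k
    linarith
  have h3 := hb i
  rw [map_add]
  linarith

end Pool.Agent.Lib.MP_3d6951_co
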