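import Pool.Agent.Lib.MP_3d6951_co.Defs

set_option autoImplicit false

/-!
# The variation of the angle along a path
-/

open Set

namespace Pool.Agent.Lib.MP_3d6951_co

variable {X : Type} [TopologicalSpace X]

theorem cov : IsCoveringMap ((↑) : ℝ → Real.Angle) :=
  AddCircle.isCoveringMap_coe (2 * Real.pi)

/-- The total variation of the angle `f` along the homotopy class `γ`. -/
noncomputable def angVar (f : C(X, Real.Angle)) {x y : X} (γ : Path.Homotopic.Quotient x y) : ℝ :=
  (cov.monodromy (γ.map f) ⟨(f x).toReal, Real.Angle.coe_toReal _⟩ : ℝ) - (f x).toReal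

theorem monodromy_lift (f : C(X, Real.Angle)) {x y : X} (γ : Path x y) (L : C(unitInterval, ℝ))
    (hL : ∀ t, (L t : Real.Angle) = f (γ t)) (e : ℝ) (he : (e : Real.Angle) = f x) :
    (cov.monodromy ((Path.Homotopic.Quotient.mk γ).map f) ⟨e, he⟩ : ℝ) = L 1 - L 0 + e := by
  have h0 : ((L 0 : ℝ) : Real.Angle) = f x := by rw [hL 0, γ.source]
  have key : (⟨fun t => L t - L 0 + e, by fun_prop⟩ : C(unitInterval, ℝ)) =
      cov.liftPath (γ.map f.continuous) e (by simp [he]) := by
    rw [cov.eq_liftPath_iff']
    constructor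
    · funext t
      simp only [Function.comp_apply, ContinuousMap.coe_mk]
      rw [Real.Angle.coe_add, Real.Angle.coe_sub, hL t, h0, he]
      simp
    · simp
  have := congrArg (fun g : C(unitInterval, ℝ) => g 1) key
  simp only [ContinuousMap.coe_mk] at this
  rw [this]
  rfl

theorem angVar_eq (f : C(X, Real.Angle)) {x y : X} (γ : Path x y) (L : C(unitInterval, ℝ))
    (hL : ∀ t, (L t : Real.Angle) = f (γ t)) :
    angVar f (Path.Homotopic.Quotient.mk γ) = L 1 - L 0 := by
  unfold angVar
  rw [monodromy_lift f γ L hL]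
  ring

theorem exists_lift (f : C(X, Real.Angle)) {x y : X} (γ : Path x y) :
    ∃ L : C(unitInterval, ℝ), ∀ t, (L t : Real.Angle) = f (γ t) := by
  have h0 : (γ.map f.continuous) 0 = (((f x).toReal : ℝ) : Real.Angle) := by simp
  refine ⟨cov.liftPath (γ.map f.continuous) (f x).toReal h0, fun t => ?_⟩
  have := congr_fun (cov.liftPath_lifts (γ.map f.continuous) (f x).toReal h0) t
  simpa using this

theorem monodromy_eq (f : C(X, Real.Angle)) {x y : X} (γ : Path.Homotopic.Quotient x y)
    (e : ℝ) (he : (e : Real.Angle) = f x) :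
    (cov.monodromy (γ.map f) ⟨e, he⟩ : ℝ) = angVar f γ + e := by
  induction γ using Path.Homotopic.Quotient.ind with
  | mk γ =>
    obtain ⟨L, hL⟩ := exists_lift f γ
    rw [monodromy_lift f γ L hL, angVar_eq f γ L hL]

theorem angVar_refl (f : C(X, Real.Angle)) (x : X) :
    angVar f (Path.Homotopic.Quotient.refl x) = 0 := by
  have : Path.Homotopic.Quotient.refl x = Path.Homotopic.Quotient.mk (Path.refl x) := rfl
  rw [this, angVar_eq f (Path.refl x) (ContinuousMap.const _ (f x).toReal) (by simp)]
  simp

theorem angVar_trans (f : C(X, Real.Angle)) {x y z : X} (γ : Path.Homotopic.Quotient x y)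
    (γ' : Path.Homotopic.Quotient y z) : angVar f (γ.trans γ') = angVar f γ + angVar f γ' := by
  have h1 : (((f x).toReal : ℝ) : Real.Angle) = f x := Real.Angle.coe_toReal _
  have h2 := monodromy_eq f (γ.trans γ') (f x).toReal h1
  have h3 : (γ.trans γ').map f = (γ.map f).trans (γ'.map f) := by
    induction γ using Path.Homotopic.Quotient.ind with
    | mk γ =>
      induction γ' using Path.Homotopic.Quotient.ind with
      | mk γ' =>
        simp only [← Path.Homotopic.Quotient.mk_trans, ← Path.Homotopic.Quotient.mk_map,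
          Path.map_trans]
  rw [h3, cov.monodromy_trans_apply] at h2
  have h4 := monodromy_eq f γ (f x).toReal h1
  have h5 := monodromy_eq f γ' (cov.monodromy (γ.map f) ⟨(f x).toReal, h1⟩ : ℝ)
    (cov.monodromy (γ.map f) ⟨(f x).toReal, h1⟩).2
  have h6 : (⟨(cov.monodromy (γ.map f) ⟨(f x).toReal, h1⟩ : ℝ),
    (cov.monodromy (γ.map f) ⟨(f x).toReal, h1⟩).2⟩ : ((↑) : ℝ → Real.Angle) ⁻¹' {f y}) =
      cov.monodromy (γ.map f) ⟨(f x).toReal, h1⟩ := rfl
  rw [h6, h2, h4] at h5
  linarith

/-- The variation of the angle as a homomorphism on the first homology group. -/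
noncomputable def wind (f : C(X, Real.Angle)) (x : X) : H₁ x →+ ℝ :=
  MonoidHom.toAdditiveLeft (Abelianization.lift
    ({ toFun := fun γ => Multiplicative.ofAdd (angVar f γ)
       map_one' := by
        rw [← ofAdd_zero, ← angVar_refl f x]
        rfl
       map_mul' := fun γ γ' => by
        rw [FundamentalGroup.mul_def, angVar_trans, ← ofAdd_add, add_comm] } :
      FundamentalGroup X x →* Multiplicative ℝ))

theorem wind_homologyClass (f : C(X, Real.Angle)) {x : X} (γ : Path x x) :
    wind f x (homologyClass γ) = angVar f (Path.Homotopic.Quotient.mk γ) := rfl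

end Pool.Agent.Lib.MP_3d6951_co
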